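import Pool.Agent.R937.BR.Main

/-!
# The Tate conjecture for products of arbitrary varieties with bounded Betti numbers

Let `W_1, ..., W_m` be **arbitrary** smooth projective varieties over the field with `p ^ a` elements and
let `b_1, ..., b_m` be degrees, such that `b_i ≤ n` and `dim H^{b_i}(W_i) ≤ n`. Let `Y` be an abelian
variety over a finite field of characteristic `p`, of any dimension, whose simple factors correspond to CM
fields of degree at most `n` (for example a product of curves of genus at most `n / 2`). We consider the
Künneth component `H^k(Y) ⊗ H^{b_1}(W_1) ⊗ ... ⊗ H^{b_m}(W_m)` of the cohomology of the product
`Y × W_1 × ... × W_m`, where `k` and `m` are arbitrary.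

**Theorem.** There is a number `B`, which depends **only on `n`** (not on `p`, `m`, `k` and the
varieties), such that all Tate classes in this space, over all finite extensions (and all elements of the
generalised eigenspaces of the Frobenius endomorphism for the powers of `q`), belong to the system `AlgW`
generated by

* divisor classes on abelian varieties (Tate classes of degree at most two);
* the (generalised) Tate classes on `A` and on `A × W_i`, for **one** index `i`, where `A` is an abelian
  variety of **dimension at most `B`**;
* linear combinations, cup products, pull-backs along homomorphisms and push-forwards along projections
  of abelian varieties.

So for each `n` **the Tate conjecture and the semisimplicity of the Frobenius endomorphism, for all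
products of arbitrary length of varieties with Betti numbers at most `n` (and dimension at most `n / 2`)
and of curves of genus at most `n / 2`, in all codimensions and all characteristics, follow from the
same for the products `A × W` of one such variety `W` and an abelian variety `A` of dimension at most
`B`**. In general the Tate classes on `W_1 × ... × W_m` are neither products of Tate classes on the
factors, nor generated by classes on the products of few of the varieties: there are relations between
the Frobenius eigenvalues of many different varieties. The theorem says that all such relations come from
abelian varieties of bounded dimension. Nothing is supposed about the varieties `W_i`, except that the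
eigenvalues of the Frobenius endomorphism are Weil numbers of degree at most `n` with slopes in `ℤ / n!`
(`IsWeil`), which is true by Deligne and by the theory of isocrystals.

The proof. The Frobenius endomorphism acts on a product by the tensor product of the Frobenius
endomorphisms of the factors, and a Tate class is a combination of products of generalised
eigenvectors. Each product gives a relation `f_1 + ... + f_m + t_1 + ... + t_k = 0` between odd functions
with values in `ℚ` on the Galois group `G` of a large CM field, which are left invariant under the
decomposition group `D`; here `f_i` is given by the slopes of an eigenvalue of `W_i`, and `t_l` belongs to
a CM type. Each function has a stabilizer (on the right) of index at most `n` and denominators dividing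
`n!`. The functions that are invariant under a normal subgroup `N` are decomposed by Möbius inversion,
`f = ∑ Q_N(f)`, where `Q_N(f)` is invariant under `N`, and the operators `Q_N` are *linear and independent
of `f`*; so a relation between the functions gives relations between their components. The component
`Q_N(f)` is an integral combination, bounded in terms of `n`, of the elementary functions `(1_O - 1_{cO}) /
M` for the double cosets `O` in `D \ G / N`. By the theorem of Honda and Tate each elementary function
belongs to an abelian variety of bounded dimension: to show this we add to the CM field a totally real
field of degree `2 M` in which `p` is inert (`exists_poly`), so that there are enough CM types. So each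
`f_i` and `t_l` is, in a canonical way, the sum of a bounded number of functions of a finite set of
abelian varieties, which is a correspondence between `W_i` and an abelian variety of dimension at most
`B`; the remaining relation between these functions is trivial.
-/

set_option autoImplicit false

namespace Pool.Agent.Results.MP_950c68_ag.BoundedReduction

open Module Pool.Agent.W495.TA Pool.Agent.R937.BR

/-- **Tate classes on products of arbitrary varieties with bounded Betti numbers** are generated by
Tate classes on the products of one of the varieties and an abelian variety of bounded dimension. -/
theorem result (n : ℕ) (hn : 0 < n) : ∃ B : ℕ, ∀ (p : ℕ) [Fact p.Prime] (ν : PadicAlgCl p ≃+* ℂ)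
    (Ω : Type) [Field Ω] [IsAlgClosed Ω] [CharZero Ω]
    (K : Type) [DecidableEq K] (H : K → Type) [∀ i, AddCommGroup (H i)] [∀ i, Module Ω (H i)]
    [∀ i, FiniteDimensional Ω (H i)] (a : ℕ) (_ : 0 < a) (b : K → ℕ) (_ : ∀ i, b i ≤ n)
    (φ : ∀ i, H i →ₗ[Ω] H i) (_ : ∀ i α, End.HasEigenvalue (φ i) α → IsWeil p ν a (b i) n α)
    (Y : RedAV p ν) (_ : ∀ i, finrank ℚ (Y.X.factor i).E ≤ n) (T : Finset K) (r k : ℕ)
    (g : Cls Ω H T Y (Fin k)), IsTate a φ r g → AlgW a φ B T Y (Fin k) g :=
  ⟨BB n, fun _ _ _ _ _ _ _ _ _ _ _ _ _ a ha b hb φ hφ Y hY T r k g hg =>
    main hn a ha b φ T (fun i _ => hb i) (fun i _ => hφ i) Y hY r k g hg⟩

end Pool.Agent.Results.MP_950c68_ag.BoundedReduction
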