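import Pool.Agent.R937.CS.Final
import Pool.Agent.R937.CS.Defs2

/-!
# The Tate conjecture for the product of an arbitrary curve with curves of genus at most two

Let `k` be a finite field with `q = p ^ a` elements and let `V = C × C_1 × ... × C_n`, where `C` is an
**arbitrary** smooth projective curve over `k` (of any genus, with any Newton polygon, without any
condition on its Frobenius eigenvalues) and the `C_i` are curves of genus at most two. Suppose that any
two of the simple factors of `p`-rank one and dimension two of the Jacobians of the curves `C_i` over an
algebraic closure (`IsMixed`) whose endomorphism fields have isomorphic real quadratic subfields have
endomorphism fields with the same Galois closure (`CurvesAndSurfacesOutside`). Then the Tate conjecture holds for `V` in all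
codimensions and over all finite extensions of `k`.

The cohomology of `V` is a sum of Tate twists of summands of the cohomology of the abelian variety
`Y = Jac(C) × Jac(C_1) × ... × Jac(C_n)`, and the classes that occur are of degree at most one in the
variables that belong to `Jac(C)` (`IsAtMostLinear`). By Honda and Tate `Y` is isogenous, over an
algebraic closure, to the reduction of an abelian variety of CM type (`RedAV`), where supersingular
factors are isogenous to powers of the reduction of an elliptic curve. The theorem: every Tate class on
`Y` which is of degree at most one in the variables of an arbitrary set `J` of factors, all others being
elliptic curves or abelian surfaces, belongs to the system `AlgS` generated by the Tate classes of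
degree two (algebraic by Tate) and by the reductions of the Hodge classes of degree four on products of
elliptic curves and abelian surfaces with complex multiplication (algebraic by Ramón Marí).

No relation of Frobenius eigenvalues is excluded: the factors in `J` may well have Frobenius
eigenvalues in the group generated by the eigenvalues of the others. The point of the proof is this.
Write the slopes of a Frobenius eigenvalue of a factor as a function on the Galois group `G`, odd under
complex conjugation `c`, and let `S` be the slope function of the eigenvalue of a factor in `J`. A Tate
class gives a relation `S = f_1 + ... + f_n`, where the `f_i` are signed functions of CM types of fields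
of degree at most four averaged over the decomposition group `D`, and `|S|` is bounded by the order
of `D`. If `S` were not itself the averaged function of a CM type of a field of degree at most four then
the sum would be too large somewhere: the group generated by the functions `f_i` splits into orthogonal
pieces of rank one or two belonging to different characters or dihedral quotients of `G`, and the
supremum of a sum of functions in different pieces is the sum of the suprema.
-/

namespace Pool.Agent.Results.MP_950c68_ag.CurveTimesSurfaces

open Module NumberField Pool.Agent.W495.TA Pool.Agent.W547.KB Pool.Agent.Y137.SF
  Pool.Agent.R937.CS

/-- Each Tate class on the product of an arbitrary abelian variety (the factors of `Y` with an index in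
`J`) with elliptic curves and abelian surfaces over a finite field that is of degree at most one in the
variables of the arbitrary abelian variety is a combination of products, pull-backs and push-forwards of
divisor classes and of reductions of Hodge classes on products of elliptic curves and abelian surfaces
with complex multiplication. -/
theorem result (p : ℕ) [Fact p.Prime] (ν : PadicAlgCl p ≃+* ℂ) (Y : RedAV p ν) (J : Set Y.X.I)
    (hJ : CurvesAndSurfacesOutside Y J) (Ω : Type) [Field Ω] [IsAlgClosed Ω] [CharZero Ω]
    (s m : ℕ) (hs : 0 < s) (f : (TM Ω Y) [⋀^Fin (2 * m)]→ₗ[Ω] Ω) (hf : IsTateClass Ω Y s m f)
    (hlin : IsAtMostLinear Y J f) : AlgS Ω ∅ Y (Fin (2 * m)) f :=
  main Y J hJ.1 hJ.2 Ω ∅ s m hs f hf hlin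

end Pool.Agent.Results.MP_950c68_ag.CurveTimesSurfaces
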