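import Pool.Agent.R907.TwoCyc

/-!
# MP_950c68_ag: the Tate conjecture for `X × X` is the existence of two cycles without common invariant subspaces

Let `H` be a Weil cohomology theory for varieties over an algebraic closure of the field with `p`
elements, with coefficients in an algebraically closed field `K` of characteristic zero embedded
in the complex numbers by `σ` (for instance `l`-adic cohomology with coefficients in an algebraic
closure of `ℚ_l`), with Frobenius endomorphisms (`FrobSystem`) which satisfy the Riemann hypothesis
(Deligne). Let `X` be a variety of dimension `n`.

**Theorem.** The following are equivalent:

1. over all sufficiently large finite fields the order at `n` of the zeta function of `X × X` is the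
   negative of the rank of the group of cycles of codimension `n` modulo numerical equivalence
   (`PoleFormula`);
2. the generalised eigenspaces of the Frobenius endomorphisms in `H^(2 n)(X × X)` for the eigenvalue
   `q ^ n` are spanned by classes of algebraic cycles (`SemisimpleTateIn`: the Tate conjecture and
   semisimplicity, in codimension `n`);
3. there are **two** algebraic cycles `z`, `z'` of codimension `n` on `X × X` with rational
   coefficients such that over all sufficiently large finite fields the only subspaces of the
   generalised eigenspaces of the Frobenius endomorphism in `H(X)` which are stable under `z` and `z'`
   are `0` and the generalised eigenspaces themselves (`TwoCycleTest`).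

The space of Tate classes on `X × X` has dimension the sum of the squares of the dimensions of
these eigenspaces; the theorem says that always two cycles are enough to certify the conjecture.
One cycle is not enough as soon as an eigenspace has dimension at least two.

The proof of `3 → 2` is a Burnside type argument with traces (it also gives the semisimplicity). For
`2 → 3` we first show that the span of the correspondences of degree zero contains an operator with
a cyclic vector; since having a given cyclic vector is a Zariski open condition, there is a rational
cycle `z` with this property. It has only finitely many invariant subspaces, and a second rational
cycle `z'` can be chosen which does not preserve those of them which are not stable under all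
correspondences.
-/

universe u v

namespace Pool.Agent.Results.MP_950c68_ag.TwoCycles

open Pool.Agent.H914 Pool.Agent.W534 Pool.Agent.R907 VarClass Obj WeilCohomology

/-- **The Tate conjecture for `X × X`, the order of the pole of the zeta function, and two cycles
without common invariant subspaces.** -/
theorem result {k : Type u} [Field k] {𝒱 : VarClass k} {ops : CycleOps 𝒱}
    (W : WeilCohomology.{u, v} ops) [IsAlgClosed W.K] {p : ℕ} (hp : 1 < p) (Φ : FrobSystem W p)
    (σ : W.K →+* ℂ) (hRH : ∀ Z, RiemannHyp Φ σ Z) (X : 𝒱.Obj) :
    List.TFAE [PoleFormula Φ σ (X.prod X) X.dim, SemisimpleTateIn Φ (X.prod X) X.dim,
      TwoCycleTest Φ X] :=
  two_tate_tfae hp hRH X

end Pool.Agent.Results.MP_950c68_ag.TwoCycles
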