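import Pool.Agent.R937.VS.Final

/-!
# Tate classes on the product of an arbitrary variety with curves of genus at most two

Let `V` be an **arbitrary** smooth projective variety over a finite field, and let `M = H^b(V)` with its
Frobenius endomorphism `φ` (coefficients in an algebraically closed field `Ω`). By Deligne its
eigenvalues are Weil numbers of weight `b`. Let `μ` be a number such that for each eigenvalue the mean
value of `(2 s - b) ^ 2`, where `s` runs through the slopes of all conjugates of the eigenvalue, is at
most `μ` (`HasSlopes`). As the slopes are in `[0, b]` one can take `μ = b ^ 2`, or `μ = w ^ 2` if `V` is
of level `w` in degree `b`.

**Theorem.** Let `Y` be an arbitrary product of elliptic curves and abelian surfaces, of any dimension.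
Then all Tate classes in `H^k(Y) ⊗ H^b(V)`, over all finite extensions (and all elements of the
generalised eigenspaces, `r` arbitrary), belong to the system `AlgV` generated by

* the Tate classes in `H^n(Y') ⊗ H^b(V)` for `n ≤ 2 μ + 1` and products `Y'` of at most `n` elliptic
  curves and abelian surfaces;
* the products with algebraic classes on abelian varieties: divisor classes (Tate) and reductions of
  Hodge classes of degree four on products of elliptic curves and abelian surfaces with complex
  multiplication (Ramón Marí);
* pull-backs along homomorphisms and push-forwards along projections of abelian varieties.

So **the Tate conjecture for all products `V × C_1 × ... × C_n`, with `C_i` of genus at most two and `n`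
arbitrary, in all codimensions, follows from the Tate conjecture for the products of `V` with at most
`2 b ^ 2 + 1` elliptic curves and abelian surfaces** (for all `b`), and the same is true of the Tate
conjecture together with semisimplicity. Nothing is supposed about `V` or about the Frobenius
eigenvalues: no independence, no semisimplicity, no part of the standard conjectures.

If `μ < 1 / 2` and `b` is even there is no condition left: as `b + n` is even only the Tate classes of
`V` itself remain. So if this is true for all eigenvalues in even degree, and the odd cohomology of
`V` vanishes, then the Tate conjecture for `V × C_1 × ... × C_n` is equivalent to the Tate conjecture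
for `V`. For example let `V` be a K3 surface of height `h`, with Picard number `ρ` over the algebraic
closure. The mean value is `8 / (h (22 - ρ))` for the transcendental eigenvalues, so that the Tate
conjecture holds, in all codimensions, for the products of `V` with any number of curves of genus at
most two if `h (22 - ρ) > 16`: for all K3 surfaces of finite height at least three, and for all ordinary
K3 surfaces with `ρ ≤ 4`. The example is not part of the formal statement.

The proof. A Tate class gives a relation `S = f_1 + ... + f_k` between functions on a Galois group `G`
with complex conjugation `c`, where `S` is given by the slopes of the conjugates of an eigenvalue of `φ`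
and `f_i` is the average, over the decomposition group `D`, of the sign function of a CM type of a field
of degree at most four. The functions `f_i` are distributed into classes, according to the core `N` of
the stabilizer of the sign function; `c` belongs to the subgroup generated by two different cores, so
that the partial sums `S_N` of the classes are orthogonal. As the quotient of `G` by `N` has order at
most eight each `S_N` is the sum of at most `2 |S_N| ^ 2` averages of sign functions invariant under `N`,
in the normalised norm of square means, and these belong to elliptic curves and abelian surfaces as
well, by Honda and Tate. By orthogonality `S` is the sum of at most `2 |S| ^ 2 ≤ 2 μ` such functions.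
This gives the abelian variety `Y'`; the relation between the two representations of `S` is the one of
an algebraic correspondence between `Y` and `Y'`.
-/

set_option autoImplicit false

namespace Pool.Agent.Results.MP_950c68_ag.VarietyTimesSurfaces

open Module Pool.Agent.W495.TA Pool.Agent.R937.VS

/-- **Tate classes on the product of an arbitrary variety with elliptic curves and abelian surfaces**
are generated by those on the products with few elliptic curves and abelian surfaces. -/
theorem result (p : ℕ) [Fact p.Prime] (ν : PadicAlgCl p ≃+* ℂ) (Ω : Type) [Field Ω]
    [IsAlgClosed Ω] [CharZero Ω] (Y : RedAV p ν) (hY : ∀ i, finrank ℚ (Y.X.factor i).E ≤ 4)
    (M : Type) [AddCommGroup M] [Module Ω M] [FiniteDimensional Ω M] (a b : ℕ) (ha : 0 < a)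
    (φ : M →ₗ[Ω] M) (μ : ℝ) (hφ : ∀ α, End.HasEigenvalue φ α → HasSlopes p ν a b μ α) (r k : ℕ)
    (g : (TM Ω Y) [⋀^Fin k]→ₗ[Ω] M) (hg : IsTate a φ r Y g) : AlgV a φ r μ Y (Fin k) g :=
  main Y hY a b ha φ μ hφ r k g hg

end Pool.Agent.Results.MP_950c68_ag.VarietyTimesSurfaces
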